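import Pool.Agent.Helper14.W5.StE

/-!
# Project W5 (Theorem A for the prime five), module CrmOf: the argument of Cramer
-/

set_option autoImplicit false

namespace Pool.Agent.Helper36.W5

open Pool.Agent.Helper14.W5
open Pool.Agent.Helper14.CV (Homog EqC act Tl EqC.Tl)
open Pool.Agent.Helper28.WK (SymP Tw evw Ok)

/-- composition of a potential with an additive homomorphism -/
private def mp {R S : Type} [AddCommGroup R] [AddCommGroup S] (φ : R →+ S) (G : ℤ → ℤ → R) :
    ℤ → ℤ → S := fun p q => φ (G p q)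

private theorem Tl_mp {R S : Type} [AddCommGroup R] [AddCommGroup S] (φ : R →+ S) (l : ℕ) (m : ℤ)
    (G : ℤ → ℤ → R) : Tl l m (mp φ G) = mp φ (Tl l m G) := by
  funext p q
  simp only [Tl, mp, map_add, map_sum]

private theorem Tw_mp {R S : Type} [AddCommGroup R] [AddCommGroup S] (φ : R →+ S) (m : ℤ)
    (ls : List ℕ) (G : ℤ → ℤ → R) : Tw m ls (mp φ G) = mp φ (Tw m ls G) := by
  induction ls with
  | nil => rfl
  | cons l ls ih =>
    show Tl l m (Tw m ls (mp φ G)) = mp φ (Tl l m (Tw m ls G))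
    rw [ih, Tl_mp]

private theorem evw_mp {R S : Type} [AddCommGroup R] [AddCommGroup S] (φ : R →+ S) (m : ℤ)
    (ls : List ℕ) (G : ℤ → ℤ → R) : evw m ls (mp φ G) = φ (evw m ls G) := by
  unfold evw
  rw [Tw_mp]
  simp only [mp, map_sub]

private theorem Uo_mp {R S : Type} [AddCommGroup R] [AddCommGroup S] (φ : R →+ S) (m : ℤ)
    (G : ℤ → ℤ → R) : Uo m (mp φ G) = mp φ (Uo m G) := by
  unfold Uo
  rw [Tl_mp, Tl_mp]
  funext p q
  simp only [mp, Pi.add_apply, map_add]

private theorem Vo_mp {R S : Type} [AddCommGroup R] [AddCommGroup S] (φ : R →+ S) (m : ℤ)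
    (G : ℤ → ℤ → R) : Vo m (mp φ G) = mp φ (Vo m G) := by
  unfold Vo
  rw [Tl_mp, Tl_mp, Tl_mp]
  funext p q
  simp only [mp, Pi.sub_apply, Pi.smul_apply, map_sub, map_zsmul]

private theorem Oo_mp {R S : Type} [AddCommGroup R] [AddCommGroup S] (φ : R →+ S) (m : ℤ)
    (G : ℤ → ℤ → R) : Oo m (mp φ G) = mp φ (Oo m G) := by
  unfold Oo
  rw [Tl_mp, Tl_mp]
  funext p q
  simp only [mp, Pi.sub_apply, map_sub]

private theorem ev5_mp {R S : Type} [AddCommGroup R] [AddCommGroup S] (φ : R →+ S) (m : ℤ)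
    (G : ℤ → ℤ → R) (c i j : ℕ) : ev5 m (mp φ G) c i j = φ (ev5 m G c i j) := by
  have h1 : ∀ (c : ℕ) (G : ℤ → ℤ → R), (Oo m)^[c] (mp φ G) = mp φ ((Oo m)^[c] G) := by
    intro c
    induction c with
    | zero => intro G; rfl
    | succ c ih =>
      intro G
      rw [Function.iterate_succ_apply, Function.iterate_succ_apply, Oo_mp, ih]
  have h2 : ∀ (i : ℕ) (G : ℤ → ℤ → R), (Uo m)^[i] (mp φ G) = mp φ ((Uo m)^[i] G) := by
    intro i
    induction i with
    | zero => intro G; rfl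
    | succ i ih =>
      intro G
      rw [Function.iterate_succ_apply, Function.iterate_succ_apply, Uo_mp, ih]
  have h3 : ∀ (j : ℕ) (G : ℤ → ℤ → R), (Vo m)^[j] (mp φ G) = mp φ ((Vo m)^[j] G) := by
    intro j
    induction j with
    | zero => intro G; rfl
    | succ j ih =>
      intro G
      rw [Function.iterate_succ_apply, Function.iterate_succ_apply, Vo_mp, ih]
  unfold ev5
  rw [h3, h2, h1]
  simp only [mp, map_sub]

/-- a linear combination as an additive homomorphism -/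
private def cmb {S ι : Type} [CommRing S] [Fintype ι] (c : ι → S) : (ι → S) →+ S :=
  AddMonoidHom.mk' (fun v => ∑ k, c k * v k) (fun v w => by
    simp only [Pi.add_apply, mul_add, Finset.sum_add_distrib])

private theorem evw_lin {S ι : Type} [CommRing S] [Fintype ι] (c : ι → S) (G : ι → ℤ → ℤ → S)
    (m : ℤ) (ls : List ℕ) :
    evw m ls (fun x y => ∑ k, c k * G k x y) = ∑ k, c k * evw m ls (G k) := by
  have h1 : evw m ls (fun x y => ∑ k, c k * G k x y) = cmb c (evw m ls fun x y k => G k x y) :=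
    evw_mp (cmb c) m ls (fun x y k => G k x y)
  rw [h1]
  refine Finset.sum_congr rfl fun k _ => ?_
  exact congrArg (c k * ·) (evw_mp (Pi.evalAddMonoidHom (fun _ : ι => S) k) m ls
    (fun x y k => G k x y)).symm

private theorem ev5_lin {S ι : Type} [CommRing S] [Fintype ι] (c : ι → S) (G : ι → ℤ → ℤ → S)
    (m : ℤ) (c' i j : ℕ) :
    ev5 m (fun x y => ∑ k, c k * G k x y) c' i j = ∑ k, c k * ev5 m (G k) c' i j := by
  have h1 : ev5 m (fun x y => ∑ k, c k * G k x y) c' i j =
      cmb c (ev5 m (fun x y k => G k x y) c' i j) :=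
    ev5_mp (cmb c) m (fun x y k => G k x y) c' i j
  rw [h1]
  refine Finset.sum_congr rfl fun k _ => ?_
  exact congrArg (c k * ·) (ev5_mp (Pi.evalAddMonoidHom (fun _ : ι => S) k) m
    (fun x y k => G k x y) c' i j).symm

private theorem SymP_mp {R S : Type} [AddCommGroup R] [AddCommGroup S] (φ : R →+ S) {p r s : ℕ}
    {G : ℤ → ℤ → R} (h : SymP p r s G) : SymP p r s (mp φ G) := by
  refine ⟨fun k p q hk hpq => congrArg φ (h.1 k p q hk hpq), fun a b c d hd hb hc => ?_⟩
  obtain ⟨e, he⟩ := h.2 a b c d hd hb hc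
  refine ⟨φ e, fun p q hpq => ?_⟩
  have := congrArg φ (he p q hpq)
  rw [map_add] at this
  exact this

private theorem SymP_zero {p r s : ℕ} : SymP p r s (0 : ℤ → ℤ → ℤ) :=
  ⟨fun _ _ _ _ _ => rfl, fun _ _ _ _ _ _ _ => ⟨0, fun _ _ _ => by simp [act]⟩⟩

private theorem SymP_lin {ι : Type} [Fintype ι] {p r s : ℕ} (c : ι → ℤ) (G : ι → ℤ → ℤ → ℤ)
    (h : ∀ k, SymP p r s (G k)) : SymP p r s (fun x y => ∑ k, c k * G k x y) := by
  classical
  have h1 : (fun x y => ∑ k, c k * G k x y) = ∑ k, c k • G k := by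
    funext x y
    rw [Finset.sum_apply, Finset.sum_apply]
    rfl
  rw [h1]
  exact Finset.sum_induction (fun k => c k • G k) (fun H => SymP p r s H)
    (fun _ _ h1 h2 => SymP.add h1 h2) SymP_zero (fun k _ => SymP.smul (c k) (h k))

private theorem Tw_congr {R : Type} [AddCommGroup R] (p : ℕ) (m : ℤ) {G H : ℤ → ℤ → R}
    (h : EqC G H) (ls : List ℕ) (hls : Ok p ls) : EqC (Tw m ls G) (Tw m ls H) := by
  induction ls with
  | nil => exact h
  | cons l ls ih =>
    have hl := hls l (by simp)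
    exact EqC.Tl (ih fun l' hl' => hls l' (by simp [hl'])) hl.1.pos m

private theorem evw_congr {R : Type} [AddCommGroup R] (p : ℕ) (m : ℤ) {G H : ℤ → ℤ → R}
    (h : EqC G H) (ls : List ℕ) (hls : Ok p ls) : evw m ls G = evw m ls H := by
  obtain ⟨c, hc⟩ := Tw_congr p m h ls hls
  unfold evw
  rw [hc 1 0 (Or.inl one_ne_zero), hc 0 1 (Or.inr one_ne_zero)]
  abel

theorem hCrmOf : S5CrmOf := by
  intro hWv hBas hDim hLft m M g hm hg hev
  obtain ⟨Gt, hGt, hEq⟩ := hLft m M g (by omega) hg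
  obtain ⟨Gk, t, hGk, hdet⟩ := hBas m hm
  set X : Matrix (Fin (DD5 m)) (Fin (DD5 m)) ℤ :=
    Matrix.of fun k l => ev5 1 (Gk k) (t l).1 (t l).2.1 (t l).2.2 with hX
  set XC : Matrix (Fin (DD5 m)) (Fin (DD5 m)) ℂ := X.map (Int.castRingHom ℂ) with hXC
  have hd0 : X.det ≠ 0 := by
    intro h
    rw [h] at hdet
    exact hdet (dvd_zero _)
  have hdC : XC.det = (X.det : ℂ) := by
    rw [hXC]
    exact (RingHom.map_det (Int.castRingHom ℂ) X).symm
  have hdC0 : XC.det ≠ 0 := by
    rw [hdC]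
    exact_mod_cast hd0
  set φ : ℤ →+ ℂ := Int.castAddHom ℂ with hφ
  have hφa : ∀ z : ℤ, φ z = (z : ℂ) := fun z => rfl
  have hXCa : ∀ k l, XC k l = ev5 1 (mp φ (Gk k)) (t l).1 (t l).2.1 (t l).2.2 := by
    intro k l
    rw [ev5_mp, hφa]
    rfl
  -- functions killed by the words are killed by all values
  have hkill : ∀ (ι : Type) [Fintype ι] (c : ι → ℂ) (G : ι → ℤ → ℤ → ℂ),
      (∀ ls, Ok 5 ls → ∑ k, c k * evw 1 ls (G k) = 0) →
      ∀ c' i j, ∑ k, c k * ev5 1 (G k) c' i j = 0 := by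
    intro ι _ c G h c' i j
    rw [← ev5_lin]
    refine hWv ℂ _ 1 _ (fun ls hls => ?_) c' i j
    rw [evw_lin]
    exact h ls hls
  have hevL : ∀ (G : ℤ → ℤ → ℂ) ls, Ok 5 ls → evLP 5 G ls = evw 1 ls G := by
    intro G ls hls
    exact if_pos hls
  -- independence
  have hind : LinearIndependent ℂ (fun k => evLP 5 (mp φ (Gk k))) := by
    rw [Fintype.linearIndependent_iff]
    intro c hc
    have h0 : ∀ ls, Ok 5 ls → ∑ k, c k * evw 1 ls (mp φ (Gk k)) = 0 := by
      intro ls hls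
      have h2 := congrFun hc ls
      simp only [Finset.sum_apply, Pi.smul_apply, Pi.zero_apply, smul_eq_mul, hevL _ ls hls] at h2
      exact h2
    have h1 : Matrix.vecMul c XC = 0 := by
      funext l
      have h2 := hkill _ c _ h0 (t l).1 (t l).2.1 (t l).2.2
      simp only [Matrix.vecMul, dotProduct, Pi.zero_apply]
      rw [← h2]
      refine Finset.sum_congr rfl fun k _ => ?_
      rw [hXCa]
    have h3 := Matrix.eq_zero_of_vecMul_eq_zero hdC0 h1
    exact fun k => congrFun h3 k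
  have hspan := hDim m (fun k => mp φ (Gk k)) hm (fun k => SymP_mp φ (hGk k)) hind (mp φ Gt)
    (SymP_mp φ hGt)
  rw [Submodule.mem_span_range_iff_exists_fun] at hspan
  obtain ⟨y, hy⟩ := hspan
  have hyw : ∀ ls, Ok 5 ls →
      ∑ k, y k * ((evw 1 ls (Gk k) : ℤ) : ℂ) = ((evw 1 ls Gt : ℤ) : ℂ) := by
    intro ls hls
    have h2 := congrFun hy ls
    simp only [Finset.sum_apply, Pi.smul_apply, smul_eq_mul, hevL _ ls hls, evw_mp, hφa] at h2
    exact h2
  have hy' : ∀ c i j : ℕ,
      ∑ k, y k * ((ev5 1 (Gk k) c i j : ℤ) : ℂ) = ((ev5 1 Gt c i j : ℤ) : ℂ) := by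
    intro c i j
    have h2 := hkill (Option (Fin (DD5 m))) (fun o => o.elim (-1) y)
      (fun o => mp φ (o.elim Gt Gk)) (fun ls hls => by
        rw [Fintype.sum_option]
        simp only [Option.elim_none, Option.elim_some, evw_mp, hφa]
        rw [hyw ls hls]
        ring) c i j
    rw [Fintype.sum_option] at h2
    simp only [Option.elim_none, Option.elim_some, ev5_mp, hφa] at h2
    linear_combination h2
  -- divisibility
  have hdiv : ∀ c i j : ℕ, (5 : ℤ) ^ M ∣ ev5 1 Gt c i j := by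
    intro c i j
    have h1 : ev5 1 (mp (Int.castAddHom (ZMod (5 ^ M))) Gt) c i j = 0 := by
      refine hWv _ _ 1 _ (fun ls hls => ?_) c i j
      have h3 : evw 1 ls (mp (Int.castAddHom (ZMod (5 ^ M))) Gt) = evw 1 ls g :=
        evw_congr 5 1 hEq ls hls
      rw [h3]
      exact hev ls hls
    rw [ev5_mp] at h1
    have h2 : ((ev5 1 Gt c i j : ℤ) : ZMod (5 ^ M)) = 0 := h1
    rw [ZMod.intCast_zmod_eq_zero_iff_dvd] at h2
    exact_mod_cast h2
  choose e he using hdiv
  set z : Fin (DD5 m) → ℤ :=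
    fun k => ∑ l, e (t l).1 (t l).2.1 (t l).2.2 * X.adjugate l k with hz
  have hdy : ∀ k, (X.det : ℂ) * y k = (5 : ℂ) ^ M * (z k : ℂ) := by
    intro k
    have h1 : Matrix.vecMul y XC =
        fun l => ((ev5 1 Gt (t l).1 (t l).2.1 (t l).2.2 : ℤ) : ℂ) := by
      funext l
      rw [← hy']
      simp only [Matrix.vecMul, dotProduct]
      refine Finset.sum_congr rfl fun k _ => ?_
      rw [hXCa, ev5_mp]
      rfl
    have h2 : Matrix.vecMul (Matrix.vecMul y XC) XC.adjugate = XC.det • y := by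
      rw [Matrix.vecMul_vecMul, Matrix.mul_adjugate, Matrix.vecMul_smul, Matrix.vecMul_one]
    have h3 : XC.adjugate = X.adjugate.map (Int.castRingHom ℂ) := by
      rw [hXC]
      exact (RingHom.map_adjugate (Int.castRingHom ℂ) X).symm
    have h4 := congrFun h2 k
    rw [h1, h3, hdC] at h4
    simp only [Matrix.vecMul, dotProduct, Pi.smul_apply, smul_eq_mul, Matrix.map_apply] at h4
    rw [← h4, hz]
    push_cast
    rw [Finset.mul_sum]
    refine Finset.sum_congr rfl fun l _ => ?_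
    rw [he]
    push_cast
    simp only [eq_intCast]
    ring
  set cc : Option (Fin (DD5 m)) → ℤ := fun o => o.elim X.det (fun k => -((5 : ℤ) ^ M * z k))
    with hcc
  set GG : Option (Fin (DD5 m)) → ℤ → ℤ → ℤ := fun o => o.elim Gt Gk with hGG
  refine ⟨X.det, fun x y => ∑ o, cc o * GG o x y, hdet, ?_, ?_, ?_⟩
  · refine SymP_lin cc GG fun o => ?_
    cases o with
    | none => exact hGt
    | some k => exact hGk k
  · intro ls hls
    rw [evw_lin, Fintype.sum_option]
    simp only [hcc, hGG, Option.elim_none, Option.elim_some]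
    have h2 : ((X.det * evw 1 ls Gt + ∑ k, -(5 ^ M * z k) * evw 1 ls (Gk k) : ℤ) : ℂ) = 0 := by
      have hdy2 := hdy
      revert hdy2
      generalize X.det = d
      intro hdy2
      push_cast
      rw [← hyw ls hls, Finset.mul_sum, ← Finset.sum_add_distrib]
      refine Finset.sum_eq_zero fun k _ => ?_
      have := hdy2 k
      linear_combination ((evw 1 ls (Gk k) : ℤ) : ℂ) * this
    exact_mod_cast h2
  · obtain ⟨c, hc⟩ := hEq
    refine ⟨X.det • c, fun p q hpq => ?_⟩
    have h1 : ((Gt p q : ℤ) : ZMod (5 ^ M)) = g p q + c := hc p q hpq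
    have h3 : ((5 : ZMod (5 ^ M)) ^ M) = 0 := by
      have := ZMod.natCast_self (5 ^ M)
      push_cast at this
      exact this
    change ((∑ o, cc o * GG o p q : ℤ) : ZMod (5 ^ M)) = X.det • g p q + X.det • c
    rw [Fintype.sum_option]
    simp only [hcc, hGG, Option.elim_none, Option.elim_some]
    generalize X.det = d
    push_cast
    rw [h1, h3, zsmul_eq_mul, zsmul_eq_mul]
    have h5 : ∑ k, -((0 : ZMod (5 ^ M)) * (z k : ZMod (5 ^ M))) * (Gk k p q : ZMod (5 ^ M)) = 0 :=
      Finset.sum_eq_zero fun k _ => by rw [zero_mul, neg_zero, zero_mul]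
    rw [h5]
    ring

end Pool.Agent.Helper36.W5
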